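import Pool.Agent.Helper42.TG.Defs

/-!
Project TG (MP_a41896_nt), packet TG-GPT: the point of the ultrapower given by a sequence of points.
-/

set_option autoImplicit false

namespace Pool.Agent.Helper78.TG

open WeierstrassCurve Height
open Pool.Agent.Helper29.BL Pool.Agent.Helper42.SG Pool.Agent.Helper42.TG
open Pool.Agent.Helper60.T3 (WL)

noncomputable section

/-- a ring homomorphism from sequences to `L` which identifies sequences that are equal almost
everywhere -/
structure EvHom {K L : Type} [Field K] [Field L] [Algebra K L] (U : Ultrafilter ℕ)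
    (e : (ℕ → K) →+* L) : Prop where
  eq_iff : ∀ f g : ℕ → K, e f = e g ↔ ∀ᶠ k in (U : Filter ℕ), f k = g k
  div : ∀ f g : ℕ → K, e (fun k => f k / g k) = e f / e g
  cst : ∀ a : K, e (fun _ => a) = algebraMap K L a

section

variable {K L : Type} [Field K] [Field L] [Algebra K L] {U : Ultrafilter ℕ}
  {e : (ℕ → K) →+* L} {W : Affine K}

/-- `P` is the point given by the sequence `s` -/
def Rel (U : Ultrafilter ℕ) (e : (ℕ → K) →+* L) (s : ℕ → W.Point) (P : (WL L W).Point) : Prop :=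
  (P = 0 ∧ ∀ᶠ k in (U : Filter ℕ), s k = 0) ∨
  ∃ (x y : ℕ → K) (h : (WL L W).Nonsingular (e x) (e y)), P = Affine.Point.some _ _ h ∧
    ∀ᶠ k in (U : Filter ℕ), ∃ h' : W.Nonsingular (x k) (y k), s k = Affine.Point.some _ _ h'

/-- the `y`-coordinate; `0` at infinity -/
def yc {F : Type} [Field F] {W : Affine F} : W.Point → F
  | .zero => 0
  | .some _ y _ => y

lemma add_e (f g : ℕ → K) : e f + e g = e (fun k => f k + g k) := (map_add e f g).symm

lemma sub_e (f g : ℕ → K) : e f - e g = e (fun k => f k - g k) := (map_sub e f g).symm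

lemma mul_e (f g : ℕ → K) : e f * e g = e (fun k => f k * g k) := (map_mul e f g).symm

lemma neg_e (f : ℕ → K) : - e f = e (fun k => - f k) := (map_neg e f).symm

lemma pow_e (f : ℕ → K) (n : ℕ) : e f ^ n = e (fun k => f k ^ n) := (map_pow e f n).symm

lemma two_e : (2 : L) = e (fun _ => 2) := (map_ofNat e 2).symm

lemma three_e : (3 : L) = e (fun _ => 3) := (map_ofNat e 3).symm

lemma eq_e (H : EvHom U e) {x y : ℕ → K}
    (h : ∀ᶠ k in (U : Filter ℕ), W.Equation (x k) (y k)) : (WL L W).Equation (e x) (e y) := by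
  rw [Affine.equation_iff]
  simp only [WL, map_a₁, map_a₂, map_a₃, map_a₄, map_a₆, ← H.cst, pow_e, mul_e, add_e]
  rw [H.eq_iff]
  filter_upwards [h] with k hk
  exact (Affine.equation_iff _ _).mp hk

lemma negY_e (H : EvHom U e) (x y : ℕ → K) :
    (WL L W).negY (e x) (e y) = e (fun k => W.negY (x k) (y k)) := by
  simp only [Affine.negY, WL, map_a₁, map_a₃, ← H.cst, mul_e, neg_e, sub_e]

lemma addX_e (H : EvHom U e) (x₁ x₂ l : ℕ → K) :
    (WL L W).addX (e x₁) (e x₂) (e l) = e (fun k => W.addX (x₁ k) (x₂ k) (l k)) := by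
  simp only [Affine.addX, WL, map_a₁, map_a₂, ← H.cst, mul_e, pow_e, add_e, sub_e]

lemma addY_e (H : EvHom U e) (x₁ x₂ y₁ l : ℕ → K) :
    (WL L W).addY (e x₁) (e x₂) (e y₁) (e l) =
      e (fun k => W.addY (x₁ k) (x₂ k) (y₁ k) (l k)) := by
  simp only [Affine.addY, Affine.negAddY, addX_e H, sub_e, mul_e, add_e, negY_e H]

lemma slope_e [DecidableEq K] [DecidableEq L] (H : EvHom U e) (x₁ x₂ y₁ y₂ : ℕ → K) :
    (WL L W).slope (e x₁) (e x₂) (e y₁) (e y₂) =
      e (fun k => W.slope (x₁ k) (x₂ k) (y₁ k) (y₂ k)) := by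
  by_cases hx : ∀ᶠ k in (U : Filter ℕ), x₁ k = x₂ k
  · by_cases hy : ∀ᶠ k in (U : Filter ℕ), y₁ k = W.negY (x₂ k) (y₂ k)
    · have h1 : e x₁ = e x₂ := (H.eq_iff _ _).mpr hx
      have h2 : e y₁ = (WL L W).negY (e x₂) (e y₂) := by
        rw [negY_e H]; exact (H.eq_iff _ _).mpr hy
      rw [Affine.slope_of_Y_eq h1 h2, ← map_zero e, H.eq_iff]
      filter_upwards [hx, hy] with k a b
      rw [Affine.slope_of_Y_eq a b]; rfl
    · have h1 : e x₁ = e x₂ := (H.eq_iff _ _).mpr hx
      have h2 : e y₁ ≠ (WL L W).negY (e x₂) (e y₂) := by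
        rw [negY_e H]; intro h; exact hy ((H.eq_iff _ _).mp h)
      have hy' : ∀ᶠ k in (U : Filter ℕ), ¬ y₁ k = W.negY (x₂ k) (y₂ k) :=
        Ultrafilter.eventually_not.mpr hy
      rw [Affine.slope_of_Y_ne h1 h2, negY_e H, two_e (e := e), three_e (e := e)]
      simp only [WL, map_a₁, map_a₂, map_a₄, ← H.cst, mul_e, pow_e, add_e, sub_e]
      rw [← H.div, H.eq_iff]
      filter_upwards [hx, hy'] with k a b
      rw [Affine.slope_of_Y_ne a b]
  · have h1 : e x₁ ≠ e x₂ := fun h => hx ((H.eq_iff _ _).mp h)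
    have hx' : ∀ᶠ k in (U : Filter ℕ), ¬ x₁ k = x₂ k := Ultrafilter.eventually_not.mpr hx
    rw [Affine.slope_of_X_ne h1, sub_e, sub_e, ← H.div, H.eq_iff]
    filter_upwards [hx'] with k a
    rw [Affine.slope_of_X_ne a]

lemma some_congr {F : Type} [Field F] {W : Affine F} {x y x' y' : F} (h : W.Nonsingular x y)
    (h' : W.Nonsingular x' y') (hx : x = x') (hy : y = y') :
    Affine.Point.some x y h = Affine.Point.some x' y' h' := by
  subst hx hy; rfl

lemma exists_rel [W.IsElliptic] (H : EvHom U e) (s : ℕ → W.Point) :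
    ∃ P : (WL L W).Point, Rel U e s P := by
  by_cases h0 : ∀ᶠ k in (U : Filter ℕ), s k = 0
  · exact ⟨0, Or.inl ⟨rfl, h0⟩⟩
  · have h1 : ∀ᶠ k in (U : Filter ℕ), ¬ s k = 0 := Ultrafilter.eventually_not.mpr h0
    have h2 : ∀ᶠ k in (U : Filter ℕ), ∃ h' : W.Nonsingular (xc (s k)) (yc (s k)),
        s k = Affine.Point.some _ _ h' := by
      filter_upwards [h1] with k hk
      generalize s k = P at hk ⊢
      rcases P with _ | ⟨x, y, h⟩
      · exact absurd rfl hk
      · exact ⟨h, rfl⟩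
    have h3 : (WL L W).Equation (e fun k => xc (s k)) (e fun k => yc (s k)) := by
      apply eq_e H
      filter_upwards [h2] with k hk
      obtain ⟨h', -⟩ := hk
      exact h'.1
    refine ⟨Affine.Point.some _ _ (Affine.equation_iff_nonsingular.mp h3), Or.inr ?_⟩
    exact ⟨_, _, _, rfl, h2⟩

lemma rel_unique (H : EvHom U e) {s : ℕ → W.Point} {P Q : (WL L W).Point} (hP : Rel U e s P)
    (hQ : Rel U e s Q) : P = Q := by
  rcases hP with ⟨rfl, h0⟩ | ⟨x, y, h, rfl, h1⟩
  · rcases hQ with ⟨rfl, -⟩ | ⟨x', y', h', rfl, h1'⟩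
    · rfl
    · exfalso
      obtain ⟨k, hk, hn, hk'⟩ := (h0.and h1').exists
      rw [hk] at hk'
      exact Affine.Point.some_ne_zero hn hk'.symm
  · rcases hQ with ⟨rfl, h0'⟩ | ⟨x', y', h', rfl, h1'⟩
    · exfalso
      obtain ⟨k, ⟨hn, hk'⟩, hk⟩ := (h1.and h0').exists
      rw [hk] at hk'
      exact Affine.Point.some_ne_zero hn hk'.symm
    · apply some_congr
      · rw [H.eq_iff]
        filter_upwards [h1, h1'] with k a b
        obtain ⟨n, hn⟩ := a
        obtain ⟨n', hn'⟩ := b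
        rw [hn] at hn'
        injection hn' with e1 e2
      · rw [H.eq_iff]
        filter_upwards [h1, h1'] with k a b
        obtain ⟨n, hn⟩ := a
        obtain ⟨n', hn'⟩ := b
        rw [hn] at hn'
        injection hn' with e1 e2

lemma rel_add [DecidableEq K] [DecidableEq L] (H : EvHom U e) {s t : ℕ → W.Point}
    {P Q : (WL L W).Point} (hP : Rel U e s P) (hQ : Rel U e t Q) : Rel U e (s + t) (P + Q) := by
  rcases hP with ⟨rfl, h0⟩ | ⟨x₁, y₁, h₁, rfl, hs⟩
  · rw [zero_add]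
    rcases hQ with ⟨rfl, h0'⟩ | ⟨x', y', h', rfl, h1'⟩
    · refine Or.inl ⟨rfl, ?_⟩
      filter_upwards [h0, h0'] with k a b
      rw [Pi.add_apply, a, b, zero_add]
    · refine Or.inr ⟨x', y', h', rfl, ?_⟩
      filter_upwards [h0, h1'] with k a b
      rw [Pi.add_apply, a, zero_add]
      exact b
  · rcases hQ with ⟨rfl, h0'⟩ | ⟨x₂, y₂, h₂, rfl, ht⟩
    · rw [add_zero]
      refine Or.inr ⟨x₁, y₁, h₁, rfl, ?_⟩
      filter_upwards [h0', hs] with k a b
      rw [Pi.add_apply, a, add_zero]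
      exact b
    · by_cases hxy : ∀ᶠ k in (U : Filter ℕ), x₁ k = x₂ k ∧ y₁ k = W.negY (x₂ k) (y₂ k)
      · have hx : e x₁ = e x₂ := by
          rw [H.eq_iff]; filter_upwards [hxy] with k a; exact a.1
        have hy : e y₁ = (WL L W).negY (e x₂) (e y₂) := by
          rw [negY_e H, H.eq_iff]; filter_upwards [hxy] with k a; exact a.2
        rw [Affine.Point.add_of_Y_eq hx hy]
        refine Or.inl ⟨rfl, ?_⟩
        filter_upwards [hxy, hs, ht] with k a b c
        obtain ⟨n, hn⟩ := b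
        obtain ⟨n', hn'⟩ := c
        rw [Pi.add_apply, hn, hn', Affine.Point.add_of_Y_eq a.1 a.2]
      · have hxy' : ∀ᶠ k in (U : Filter ℕ), ¬ (x₁ k = x₂ k ∧ y₁ k = W.negY (x₂ k) (y₂ k)) :=
          Ultrafilter.eventually_not.mpr hxy
        have hn : ¬ (e x₁ = e x₂ ∧ e y₁ = (WL L W).negY (e x₂) (e y₂)) := by
          rintro ⟨a, b⟩
          rw [negY_e H, H.eq_iff] at b
          rw [H.eq_iff] at a
          exact hxy (by filter_upwards [a, b] with k u v; exact ⟨u, v⟩)
        rw [Affine.Point.add_some hn]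
        have ex : (WL L W).addX (e x₁) (e x₂) ((WL L W).slope (e x₁) (e x₂) (e y₁) (e y₂)) =
            e (fun k => W.addX (x₁ k) (x₂ k) (W.slope (x₁ k) (x₂ k) (y₁ k) (y₂ k))) := by
          rw [slope_e H, addX_e H]
        have ey : (WL L W).addY (e x₁) (e x₂) (e y₁)
            ((WL L W).slope (e x₁) (e x₂) (e y₁) (e y₂)) =
            e (fun k => W.addY (x₁ k) (x₂ k) (y₁ k)
              (W.slope (x₁ k) (x₂ k) (y₁ k) (y₂ k))) := by
          rw [slope_e H, addY_e H]
        refine Or.inr ⟨_, _, ?_, some_congr _ _ ex ey, ?_⟩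
        · rw [← ex, ← ey]
          exact Affine.nonsingular_add h₁ h₂ hn
        · filter_upwards [hxy', hs, ht] with k a b c
          obtain ⟨n, hn⟩ := b
          obtain ⟨n', hn'⟩ := c
          exact ⟨Affine.nonsingular_add n n' a, by
            rw [Pi.add_apply, hn, hn', Affine.Point.add_some a]⟩

lemma rel_zero (H : EvHom U e) {s : ℕ → W.Point} {P : (WL L W).Point} (hP : Rel U e s P) :
    P = 0 ↔ ∀ᶠ k in (U : Filter ℕ), s k = 0 := by
  constructor
  · rintro rfl
    rcases hP with ⟨-, h⟩ | ⟨x, y, h, h0, -⟩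
    · exact h
    · exact absurd h0.symm (Affine.Point.some_ne_zero h)
  · intro h
    exact rel_unique H hP (Or.inl ⟨rfl, h⟩)

lemma rel_xc (H : EvHom U e) {s : ℕ → W.Point} {P : (WL L W).Point} (hP : Rel U e s P) :
    xc P = e (fun k => xc (s k)) := by
  rcases hP with ⟨rfl, h⟩ | ⟨x, y, h, rfl, hs⟩
  · rw [xc_zero, ← map_zero e, H.eq_iff]
    filter_upwards [h] with k hk
    rw [hk]; rfl
  · rw [xc_some, H.eq_iff]
    filter_upwards [hs] with k hk
    obtain ⟨n, hn⟩ := hk
    rw [hn]; rfl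

lemma rel_ps (H : EvHom U e) {s : ℕ → W.Point} {P : (WL L W).Point} (hP : Rel U e s P) :
    ps P = e (fun k => ps (s k)) := by
  rcases hP with ⟨rfl, h⟩ | ⟨x, y, h, rfl, hs⟩
  · have h0 : ps (0 : (WL L W).Point) = 0 := rfl
    rw [h0, ← map_zero e, H.eq_iff]
    filter_upwards [h] with k hk
    rw [hk]; rfl
  · have h0 : ps (Affine.Point.some _ _ h : (WL L W).Point) =
        2 * e y + (WL L W).a₁ * e x + (WL L W).a₃ := rfl
    rw [h0, two_e (e := e)]
    simp only [WL, map_a₁, map_a₃, ← H.cst, mul_e, add_e]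
    rw [H.eq_iff]
    filter_upwards [hs] with k hk
    obtain ⟨n, hn⟩ := hk
    rw [hn]; rfl

end

theorem evHom {K : Type} [Field K] (U : Ultrafilter ℕ) (L : Type) [Field L]
    [Algebra (GK K U) L] [Algebra K L]
    (hc : ∀ a : K, algebraMap K L a = algebraMap (GK K U) L (gm U fun _ => a)) :
    EvHom U ((algebraMap (GK K U) L).comp (Filter.Germ.coeRingHom (U : Filter ℕ))) := by
  refine ⟨?_, ?_, ?_⟩
  · intro f g
    rw [RingHom.comp_apply, RingHom.comp_apply, (algebraMap (GK K U) L).injective.eq_iff]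
    exact Filter.Germ.coe_eq
  · intro f g
    rw [RingHom.comp_apply, RingHom.comp_apply, RingHom.comp_apply, ← map_div₀]
    rfl
  · intro a
    rw [hc a]
    rfl

theorem t_GPT : GPT := by
  intro K _ _ _ U L _ _ _ _ hc W hW
  have H := evHom U L hc
  set e : (ℕ → K) →+* L := (algebraMap (GK K U) L).comp (Filter.Germ.coeRingHom (U : Filter ℕ))
    with he
  have ge : ∀ f : ℕ → K, gl U L f = e f := fun f => rfl
  choose φ hφ using fun s : ℕ → W.Point => exists_rel (W := W) H s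
  refine ⟨⟨⟨φ, ?_⟩, ?_⟩, ?_⟩
  · exact rel_unique H (hφ 0) (Or.inl ⟨rfl, Filter.Eventually.of_forall fun k => rfl⟩)
  · intro s t
    exact rel_unique H (hφ (s + t)) (rel_add H (hφ s) (hφ t))
  · intro s
    refine ⟨rel_zero H (hφ s), ?_, ?_⟩
    · rw [ge]; exact rel_xc H (hφ s)
    · rw [ge]; exact rel_ps H (hφ s)

end

end Pool.Agent.Helper78.TG
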